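import Pool.Agent.TH36.E3.Struct

/-!
# MP_52e257_al (Q1): the anticommutative case

Over a field of characteristic different from three every simple algebra with `x² = 0` for all `x`
that satisfies `([x,y],y,y) = 0` is a Jordan algebra, and it exists in characteristic two at most.
(In characteristic not two the identity is `((xy)y)y = 0` for such algebras, and they are locally
nilpotent in characteristic different from two and three.)
-/

set_option autoImplicit false

namespace Pool.Agent.Results.MP_52e257_al.AnticommutativeCase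

open Pool.Agent.H461R3.E3

universe u v

/-- the identity `([x,y],y,y) = 0` -/
def CommIdentity (A : Type v) [NonUnitalNonAssocRing A] : Prop :=
  ∀ x y : A, ((x * y - y * x) * y) * y = (x * y - y * x) * (y * y)

/-- (linear) Jordan algebra: commutative and `(x²,y,x) = 0` -/
def IsJordanAlg (A : Type v) [NonUnitalNonAssocRing A] : Prop :=
  (∀ x y : A, x * y = y * x) ∧ ∀ x y : A, ((x * x) * y) * x = (x * x) * (y * x)

/-- `A` is a simple algebra over `F`: `A² ≠ 0` and the only two-sided ideals (subspaces closed under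
left and right multiplications) are `0` and `A` -/
def IsSimpleAlg (F : Type u) (A : Type v) [Field F] [NonUnitalNonAssocRing A] [Module F A] : Prop :=
  (∃ x y : A, x * y ≠ 0) ∧
    ∀ I : Submodule F A, (∀ a ∈ I, ∀ x : A, x * a ∈ I ∧ a * x ∈ I) → I = ⊥ ∨ I = ⊤

section

variable {F : Type u} [Field F] {A : Type v} [NonUnitalNonAssocRing A] [Module F A]
variable [IsScalarTower F A A] [SMulCommClass F A A]

/-- the span of the products of at least `m` elements of the subalgebra generated by `S` -/
def V (F : Type u) [Field F] {A : Type v} [NonUnitalNonAssocRing A] [Module F A]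
    [IsScalarTower F A A] [SMulCommClass F A A] (m : ℕ) (S : Set A) : Submodule F A :=
  Submodule.span F {y | ∃ k, m ≤ k ∧ IsProd (NonUnitalAlgebra.adjoin F S : Set A) k y}

theorem V_mul_right {m : ℕ} {S : Set A} {c x : A} (hc : c ∈ S) (hx : x ∈ V F m S) :
    x * c ∈ V F (m + 1) S := by
  unfold V at hx
  induction hx using Submodule.span_induction with
  | mem x hx =>
    obtain ⟨k, hk, hx⟩ := hx
    exact Submodule.subset_span ⟨k + 1, by omega,
      IsProd.mul hx (IsProd.base (NonUnitalAlgebra.subset_adjoin F hc))⟩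
  | zero => rw [zero_mul]; exact zero_mem _
  | add x y _ _ h1 h2 => rw [add_mul]; exact add_mem h1 h2
  | smul r x _ h1 => rw [smul_mul_assoc]; exact Submodule.smul_mem _ r h1

theorem V_anti {m n : ℕ} (h : m ≤ n) (S : Set A) : V F n S ≤ V F m S :=
  Submodule.span_mono fun _ ⟨k, hk, hy⟩ => ⟨k, by omega, hy⟩

/-- the elements that lie deeper than `a`, uniformly over the large finite sets -/
def P (F : Type u) [Field F] {A : Type v} [NonUnitalNonAssocRing A] [Module F A]
    [IsScalarTower F A A] [SMulCommClass F A A] (a : A) : Submodule F A where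
  carrier := {x | ∃ S : Set A, S.Finite ∧ ∀ S' : Set A, S ⊆ S' → ∀ m, a ∈ V F m S' →
    x ∈ V F (m + 1) S'}
  zero_mem' := ⟨∅, Set.finite_empty, fun _ _ _ _ => zero_mem _⟩
  add_mem' := by
    rintro x y ⟨S, hS, h1⟩ ⟨T, hT, h2⟩
    exact ⟨S ∪ T, hS.union hT, fun S' hS' m hm => add_mem
      (h1 S' (Set.subset_union_left.trans hS') m hm)
      (h2 S' (Set.subset_union_right.trans hS') m hm)⟩
  smul_mem' := by
    rintro r x ⟨S, hS, h1⟩
    exact ⟨S, hS, fun S' hS' m hm => Submodule.smul_mem _ r (h1 S' hS' m hm)⟩

theorem P_mul {a x : A} (hx : x ∈ P F a) (c : A) : x * c ∈ P F a := by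
  obtain ⟨S, hS, h1⟩ := hx
  refine ⟨insert c S, hS.insert c, fun S' hS' m hm => ?_⟩
  have h2 := V_mul_right (F := F) (hS' (Set.mem_insert c S))
    (h1 S' ((Set.subset_insert c S).trans hS') m hm)
  exact V_anti (by omega) S' h2

theorem mem_P (a b : A) : a * b ∈ P F a :=
  ⟨{b}, Set.finite_singleton b, fun S' hS' _ hm =>
    V_mul_right (hS' (Set.mem_singleton b)) hm⟩

theorem anti {h0 : ∀ x : A, x * x = 0} (x y : A) : x * y = -(y * x) := by
  have h := h0 (x + y)
  rw [mul_add, add_mul, add_mul, h0 x, h0 y, zero_add, add_zero] at h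
  exact eq_neg_of_add_eq_zero_right h

/-- A simple anticommutative algebra is not locally nilpotent. -/
theorem not_simple (h0 : ∀ x : A, x * x = 0)
    (hL : ∀ S : Set A, S.Finite → ∃ N, ∀ n, N ≤ n → ∀ x : A,
      IsProd (NonUnitalAlgebra.adjoin F S : Set A) n x → x = 0) : ¬ IsSimpleAlg F A := by
  rintro ⟨⟨a, b, hab⟩, hI⟩
  have h1 : P F a = ⊥ ∨ P F a = ⊤ := by
    refine hI _ fun x hx c => ⟨?_, P_mul hx c⟩
    rw [anti (h0 := h0) c x]
    exact neg_mem (P_mul hx c)
  rcases h1 with h1 | h1
  · have h2 := mem_P (F := F) a b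
    rw [h1, Submodule.mem_bot] at h2
    exact hab h2
  · have h2 : a ∈ P F a := by rw [h1]; exact Submodule.mem_top
    obtain ⟨S, hS, h3⟩ := h2
    obtain ⟨N, hN⟩ := hL (insert a S) (hS.insert a)
    have h4 : ∀ m, a ∈ V F (m + 1) (insert a S) := by
      intro m
      induction m with
      | zero =>
        exact Submodule.subset_span ⟨1, le_rfl,
          IsProd.base (NonUnitalAlgebra.subset_adjoin F (Set.mem_insert a S))⟩
      | succ m ih => exact h3 _ (Set.subset_insert a S) _ ih
    have h5 : V F (N + 1) (insert a S) ≤ ⊥ := by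
      refine Submodule.span_le.2 ?_
      rintro y ⟨k, hk, hy⟩
      exact (Submodule.mem_bot F).2 (hN k (by omega) y hy)
    have h6 : a = 0 := (Submodule.mem_bot F).1 (h5 (h4 N))
    exact hab (by rw [h6, zero_mul])

end

/-- Over a field `F` of characteristic different from 3 let `A` be a simple algebra (of any
dimension) with `x² = 0` for all `x` that satisfies `([x,y],y,y) = 0`. Then `F` has characteristic 2
and `A` is a Jordan algebra. So the algebras with `x² = 0`, which are all noncommutative Jordan,
contain no example for Q1 outside characteristic 3. -/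
theorem result (F : Type u) [Field F] (h3 : (3 : F) ≠ 0)
    (A : Type v) [NonUnitalNonAssocRing A] [Module F A] [IsScalarTower F A A]
    [SMulCommClass F A A] (h0 : ∀ x : A, x * x = 0) (hC : CommIdentity A)
    (hs : IsSimpleAlg F A) : (2 : F) = 0 ∧ IsJordanAlg A := by
  by_cases h2 : (2 : F) = 0
  · refine ⟨h2, fun x y => ?_, fun x y => ?_⟩
    · rw [anti (h0 := h0) x y, neg_eq_iff_add_eq_zero, ← two_smul F, h2, zero_smul]
    · rw [h0 x, zero_mul, zero_mul, zero_mul]
  · exfalso
    have h1 : ThreeEngel A := by
      intro x y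
      have h := hC x y
      rw [anti (h0 := h0) y x, sub_neg_eq_add, h0 y, mul_zero, add_mul, add_mul,
        ← two_smul F] at h
      exact (smul_eq_zero.1 h).resolve_left h2
    refine not_simple h0 (fun S hS => ?_) hs
    obtain ⟨N, -, hN⟩ := Pool.Agent.TH36.E3.loc_nilp (F := F) h2 h3 h0 h1 hS
    exact ⟨N, hN⟩

end Pool.Agent.Results.MP_52e257_al.AnticommutativeCase
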