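import Mathlib

/-!
# Simple noncommutative Jordan algebras with `([x,y],y,y) = 0`, neither alternative nor Jordan

For a field `K` of characteristic not two let `A = K ⊕ K³ ⊕ K³` with the product
`(a, p, q) (b, r, s) = (a b - 2 (p · s + q · r), a r + b p + 2 q × s, a s + b q + 2 p × r)`.
(This is `K ⊕ L³` with `L = K × K` and the hermitian cross product `conj (v × w)`, the part of the
split octonions `L ⊕ L³` in which the trace-free part of `L` is projected away.)
`A` is simple, noncommutative Jordan, satisfies `([x,y],y,y) = 0`, and is neither alternative nor a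
Jordan algebra. With `K = F(t)` it is infinite dimensional over `F`. (Up to a scaling `A` is a color
algebra in the sense of Domokos and Kovesi-Domokos; its dimension over `K` is seven.)
-/

set_option autoImplicit false
set_option linter.unusedSimpArgs false
set_option linter.unusedSectionVars false

namespace Pool.Agent.Results.MP_52e257_al.SimpleExample

/-- noncommutative Jordan algebra: `(x,y,x) = 0` and `(x²,y,x) = 0` -/
def IsNCJordan (A : Type) [NonUnitalNonAssocRing A] : Prop :=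
  (∀ x y : A, (x * y) * x = x * (y * x)) ∧ ∀ x y : A, ((x * x) * y) * x = (x * x) * (y * x)

/-- the identity `([x,y],y,y) = 0` -/
def CommIdentity (A : Type) [NonUnitalNonAssocRing A] : Prop :=
  ∀ x y : A, ((x * y - y * x) * y) * y = (x * y - y * x) * (y * y)

/-- alternative algebra: `(x,x,y) = 0 = (y,x,x)` -/
def IsAlternative (A : Type) [NonUnitalNonAssocRing A] : Prop :=
  ∀ x y : A, (x * x) * y = x * (x * y) ∧ (y * x) * x = y * (x * x)

/-- (linear) Jordan algebra: commutative and `(x²,y,x) = 0` -/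
def IsJordanAlg (A : Type) [NonUnitalNonAssocRing A] : Prop :=
  (∀ x y : A, x * y = y * x) ∧ ∀ x y : A, ((x * x) * y) * x = (x * x) * (y * x)

/-- `A` is a simple algebra over `F`: the product is `F`-bilinear, `A² ≠ 0` and the only two-sided
ideals (subspaces closed under left and right multiplications) are `0` and `A` -/
def IsSimpleAlg (F A : Type) [Field F] [NonUnitalNonAssocRing A] [Module F A] : Prop :=
  (∀ (c : F) (x y : A), (c • x) * y = c • (x * y) ∧ x * (c • y) = c • (x * y)) ∧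
  (∃ x y : A, x * y ≠ 0) ∧
    ∀ I : Submodule F A, (∀ a ∈ I, ∀ x : A, x * a ∈ I ∧ a * x ∈ I) → I = ⊥ ∨ I = ⊤

/-- the space `K ⊕ K³ ⊕ K³` -/
def Seven (K : Type) : Type := Fin 7 → K

namespace Seven

variable {K : Type} [Field K]

instance : AddCommGroup (Seven K) := inferInstanceAs (AddCommGroup (Fin 7 → K))

instance {F : Type} [Field F] [Module F K] : Module F (Seven K) :=
  inferInstanceAs (Module F (Fin 7 → K))

/-- the product of `K ⊕ K³ ⊕ K³` -/
def prod (x y : Seven K) : Seven K :=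
  ![x 0 * y 0 - 2 * (x 1 * y 4 + x 2 * y 5 + x 3 * y 6 + x 4 * y 1 + x 5 * y 2 + x 6 * y 3),
    x 0 * y 1 + y 0 * x 1 + 2 * (x 5 * y 6 - x 6 * y 5),
    x 0 * y 2 + y 0 * x 2 + 2 * (x 6 * y 4 - x 4 * y 6),
    x 0 * y 3 + y 0 * x 3 + 2 * (x 4 * y 5 - x 5 * y 4),
    x 0 * y 4 + y 0 * x 4 + 2 * (x 2 * y 3 - x 3 * y 2),
    x 0 * y 5 + y 0 * x 5 + 2 * (x 3 * y 1 - x 1 * y 3),
    x 0 * y 6 + y 0 * x 6 + 2 * (x 1 * y 2 - x 2 * y 1)]

instance : Mul (Seven K) := ⟨prod⟩

theorem add_ap (x y : Seven K) (i : Fin 7) : (x + y) i = x i + y i := rfl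
theorem sub_ap (x y : Seven K) (i : Fin 7) : (x - y) i = x i - y i := rfl
theorem zero_ap (i : Fin 7) : (0 : Seven K) i = 0 := rfl
theorem smul_ap {F : Type} [Field F] [Module F K] (c : F) (x : Seven K) (i : Fin 7) :
    (c • x) i = c • x i := rfl

theorem mul0 (x y : Seven K) : (x * y) 0 = x 0 * y 0 -
    2 * (x 1 * y 4 + x 2 * y 5 + x 3 * y 6 + x 4 * y 1 + x 5 * y 2 + x 6 * y 3) := rfl
theorem mul1 (x y : Seven K) : (x * y) 1 =
    x 0 * y 1 + y 0 * x 1 + 2 * (x 5 * y 6 - x 6 * y 5) := rfl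
theorem mul2 (x y : Seven K) : (x * y) 2 =
    x 0 * y 2 + y 0 * x 2 + 2 * (x 6 * y 4 - x 4 * y 6) := rfl
theorem mul3 (x y : Seven K) : (x * y) 3 =
    x 0 * y 3 + y 0 * x 3 + 2 * (x 4 * y 5 - x 5 * y 4) := rfl
theorem mul4 (x y : Seven K) : (x * y) 4 =
    x 0 * y 4 + y 0 * x 4 + 2 * (x 2 * y 3 - x 3 * y 2) := rfl
theorem mul5 (x y : Seven K) : (x * y) 5 =
    x 0 * y 5 + y 0 * x 5 + 2 * (x 3 * y 1 - x 1 * y 3) := rfl
theorem mul6 (x y : Seven K) : (x * y) 6 =
    x 0 * y 6 + y 0 * x 6 + 2 * (x 1 * y 2 - x 2 * y 1) := rfl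

omit [Field K] in
theorem ext7 {x y : Seven K} (h0 : x 0 = y 0) (h1 : x 1 = y 1) (h2 : x 2 = y 2)
    (h3 : x 3 = y 3) (h4 : x 4 = y 4) (h5 : x 5 = y 5) (h6 : x 6 = y 6) : x = y := by
  funext i
  fin_cases i
  exacts [h0, h1, h2, h3, h4, h5, h6]

instance : NonUnitalNonAssocRing (Seven K) where
  left_distrib x y z := by
    apply ext7 <;> simp only [add_ap, mul0, mul1, mul2, mul3, mul4, mul5, mul6] <;> ring
  right_distrib x y z := by
    apply ext7 <;> simp only [add_ap, mul0, mul1, mul2, mul3, mul4, mul5, mul6] <;> ring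
  zero_mul x := by
    apply ext7 <;> simp only [zero_ap, mul0, mul1, mul2, mul3, mul4, mul5, mul6] <;> ring
  mul_zero x := by
    apply ext7 <;> simp only [zero_ap, mul0, mul1, mul2, mul3, mul4, mul5, mul6] <;> ring

theorem ncj : IsNCJordan (Seven K) := by
  constructor <;> intro x y <;> apply ext7 <;>
    simp only [mul0, mul1, mul2, mul3, mul4, mul5, mul6] <;> ring

theorem commId : CommIdentity (Seven K) := by
  intro x y
  apply ext7 <;> simp only [sub_ap, mul0, mul1, mul2, mul3, mul4, mul5, mul6] <;> ring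

/-- the element `(c, 0, 0)` -/
def sc (c : K) : Seven K := ![c, 0, 0, 0, 0, 0, 0]

theorem sc0 (c : K) : sc c 0 = c := rfl
theorem sc1 (c : K) : sc c 1 = 0 := rfl
theorem sc2 (c : K) : sc c 2 = 0 := rfl
theorem sc3 (c : K) : sc c 3 = 0 := rfl
theorem sc4 (c : K) : sc c 4 = 0 := rfl
theorem sc5 (c : K) : sc c 5 = 0 := rfl
theorem sc6 (c : K) : sc c 6 = 0 := rfl

/-- the element with given coordinates -/
def vec (b : K) (p1 p2 p3 q1 q2 q3 : K) : Seven K := ![b, p1, p2, p3, q1, q2, q3]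

theorem vec0 (b p1 p2 p3 q1 q2 q3 : K) : vec b p1 p2 p3 q1 q2 q3 0 = b := rfl
theorem vec1 (b p1 p2 p3 q1 q2 q3 : K) : vec b p1 p2 p3 q1 q2 q3 1 = p1 := rfl
theorem vec2 (b p1 p2 p3 q1 q2 q3 : K) : vec b p1 p2 p3 q1 q2 q3 2 = p2 := rfl
theorem vec3 (b p1 p2 p3 q1 q2 q3 : K) : vec b p1 p2 p3 q1 q2 q3 3 = p3 := rfl
theorem vec4 (b p1 p2 p3 q1 q2 q3 : K) : vec b p1 p2 p3 q1 q2 q3 4 = q1 := rfl
theorem vec5 (b p1 p2 p3 q1 q2 q3 : K) : vec b p1 p2 p3 q1 q2 q3 5 = q2 := rfl
theorem vec6 (b p1 p2 p3 q1 q2 q3 : K) : vec b p1 p2 p3 q1 q2 q3 6 = q3 := rfl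

theorem not_alternative (h2 : (2 : K) ≠ 0) : ¬ IsAlternative (Seven K) := by
  intro h
  have h1 := (h (vec 0 1 0 0 1 0 0) (vec 0 1 0 0 (-1) 0 0)).2
  have e := congrFun h1 1
  simp only [mul0, mul1, mul2, mul3, mul4, mul5, mul6, vec0, vec1, vec2, vec3, vec4, vec5,
    vec6] at e
  ring_nf at e
  have h4 : (4 : K) ≠ 0 := by
    have := mul_ne_zero h2 h2
    norm_num at this
    exact this
  apply h4
  linear_combination e

theorem not_comm (h2 : (2 : K) ≠ 0) : ¬ ∀ x y : Seven K, x * y = y * x := by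
  intro h
  have h1 := h (vec 0 1 0 0 0 0 0) (vec 0 0 1 0 0 0 0)
  have e := congrFun h1 6
  simp only [mul0, mul1, mul2, mul3, mul4, mul5, mul6, vec0, vec1, vec2, vec3, vec4, vec5,
    vec6] at e
  have h4 : (4 : K) ≠ 0 := by
    have := mul_ne_zero h2 h2
    norm_num at this
    exact this
  apply h4
  linear_combination e

theorem sc_mul (c : K) (x : Seven K) (i : Fin 7) : (sc c * x) i = c * x i := by
  fin_cases i
  all_goals
    first
      | (show (sc c * x) 0 = _; rw [mul0]; simp only [sc0, sc1, sc2, sc3, sc4, sc5, sc6]; ring_nf; rfl)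
      | (show (sc c * x) 1 = _; rw [mul1]; simp only [sc0, sc1, sc2, sc3, sc4, sc5, sc6]; ring_nf; rfl)
      | (show (sc c * x) 2 = _; rw [mul2]; simp only [sc0, sc1, sc2, sc3, sc4, sc5, sc6]; ring_nf; rfl)
      | (show (sc c * x) 3 = _; rw [mul3]; simp only [sc0, sc1, sc2, sc3, sc4, sc5, sc6]; ring_nf; rfl)
      | (show (sc c * x) 4 = _; rw [mul4]; simp only [sc0, sc1, sc2, sc3, sc4, sc5, sc6]; ring_nf; rfl)
      | (show (sc c * x) 5 = _; rw [mul5]; simp only [sc0, sc1, sc2, sc3, sc4, sc5, sc6]; ring_nf; rfl)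
      | (show (sc c * x) 6 = _; rw [mul6]; simp only [sc0, sc1, sc2, sc3, sc4, sc5, sc6]; ring_nf; rfl)

/-- `x y + y x` for `x, y` without scalar part -/
theorem anti_eq (x y : Seven K) (hx : x 0 = 0) (hy : y 0 = 0) : x * y + y * x =
    sc (-(2 * 2) * (x 1 * y 4 + x 2 * y 5 + x 3 * y 6 + x 4 * y 1 + x 5 * y 2 + x 6 * y 3)) := by
  apply ext7 <;>
    simp only [add_ap, mul0, mul1, mul2, mul3, mul4, mul5, mul6, sc0, sc1, sc2, sc3, sc4, sc5,
      sc6, hx, hy] <;> ring

/-- the ideal is everything as soon as it contains a nonzero element without scalar part -/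
theorem mem_sc {F : Type} [Field F] [Module F K] (h2 : (2 : K) ≠ 0)
    (I : Submodule F (Seven K)) (hI : ∀ a ∈ I, ∀ x : Seven K, x * a ∈ I ∧ a * x ∈ I)
    (x : Seven K) (hx : x ∈ I) (h0 : x 0 = 0) (hne : x ≠ 0) : ∃ c : K, c ≠ 0 ∧ sc c ∈ I := by
  have h4 : -((2 : K) * 2) ≠ 0 := neg_ne_zero.2 (mul_ne_zero h2 h2)
  have key : ∀ y : Seven K, y 0 = 0 →
      sc (-(2 * 2) * (x 1 * y 4 + x 2 * y 5 + x 3 * y 6 + x 4 * y 1 + x 5 * y 2 + x 6 * y 3))
        ∈ I := by
    intro y hy
    rw [← anti_eq x y h0 hy]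
    exact I.add_mem (hI x hx y).2 (hI x hx y).1
  by_contra hno
  push Not at hno
  have k1 : ∀ y : Seven K, y 0 = 0 →
      x 1 * y 4 + x 2 * y 5 + x 3 * y 6 + x 4 * y 1 + x 5 * y 2 + x 6 * y 3 = 0 := by
    intro y hy
    by_contra hc
    exact hno _ (mul_ne_zero h4 hc) (key y hy)
  apply hne
  apply ext7
  · exact h0
  · simpa [zero_ap, vec0, vec1, vec2, vec3, vec4, vec5, vec6] using k1 (vec 0 0 0 0 1 0 0) rfl
  · simpa [zero_ap, vec0, vec1, vec2, vec3, vec4, vec5, vec6] using k1 (vec 0 0 0 0 0 1 0) rfl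
  · simpa [zero_ap, vec0, vec1, vec2, vec3, vec4, vec5, vec6] using k1 (vec 0 0 0 0 0 0 1) rfl
  · simpa [zero_ap, vec0, vec1, vec2, vec3, vec4, vec5, vec6] using k1 (vec 0 1 0 0 0 0 0) rfl
  · simpa [zero_ap, vec0, vec1, vec2, vec3, vec4, vec5, vec6] using k1 (vec 0 0 1 0 0 0 0) rfl
  · simpa [zero_ap, vec0, vec1, vec2, vec3, vec4, vec5, vec6] using k1 (vec 0 0 0 1 0 0 0) rfl

theorem simple {F : Type} [Field F] [Algebra F K] (h2 : (2 : K) ≠ 0) :
    IsSimpleAlg F (Seven K) := by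
  refine ⟨fun c x y => ?_, ⟨sc 1, sc 1, fun h => ?_⟩, fun I hI => ?_⟩
  · constructor <;> apply ext7 <;>
      simp only [smul_ap, mul0, mul1, mul2, mul3, mul4, mul5, mul6, Algebra.smul_def] <;> ring
  · have := congrFun h 0
    rw [sc_mul] at this
    simp [sc0, zero_ap] at this
  · by_cases hb : I = ⊥
    · exact Or.inl hb
    right
    obtain ⟨x, hx, hne⟩ := Submodule.exists_mem_ne_zero_of_ne_bot hb
    have h4 : (2 : K) * 2 ≠ 0 := mul_ne_zero h2 h2
    -- a nonzero scalar in the ideal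
    have hsc : ∃ c : K, c ≠ 0 ∧ sc c ∈ I := by
      by_cases hcomm : ∃ w : Seven K, x * w - w * x ≠ 0
      · obtain ⟨w, hw⟩ := hcomm
        refine mem_sc h2 I hI (x * w - w * x) (I.sub_mem (hI x hx w).2 (hI x hx w).1) ?_ hw
        rw [sub_ap, mul0, mul0]
        ring
      · push Not at hcomm
        have c1 := hcomm (vec 0 1 0 0 0 0 0)
        have c2 := hcomm (vec 0 0 1 0 0 0 0)
        have c4 := hcomm (vec 0 0 0 0 1 0 0)
        have c5 := hcomm (vec 0 0 0 0 0 1 0)
        have e12 := congrFun c1 5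
        have e13 := congrFun c1 6
        have e21 := congrFun c2 6
        have e42 := congrFun c4 2
        have e43 := congrFun c4 3
        have e51 := congrFun c5 3
        simp only [sub_ap, zero_ap, mul0, mul1, mul2, mul3, mul4, mul5, mul6, vec0, vec1, vec2,
          vec3, vec4, vec5, vec6] at e12 e13 e21 e42 e43 e51
        have g : ∀ t : K, 2 * 2 * t = 0 → t = 0 := fun t ht =>
          (mul_eq_zero.1 ht).resolve_left h4
        have x3 : x 3 = 0 := g _ (by linear_combination e12)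
        have x2 : x 2 = 0 := g _ (by linear_combination -e13)
        have x1 : x 1 = 0 := g _ (by linear_combination e21)
        have x6 : x 6 = 0 := g _ (by linear_combination e42)
        have x5 : x 5 = 0 := g _ (by linear_combination -e43)
        have x4 : x 4 = 0 := g _ (by linear_combination e51)
        have hx' : x = sc (x 0) := ext7 rfl x1 x2 x3 x4 x5 x6
        refine ⟨x 0, fun h0 => hne ?_, hx' ▸ hx⟩
        rw [hx', h0]
        exact ext7 rfl rfl rfl rfl rfl rfl rfl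
    obtain ⟨c, hc, hcI⟩ := hsc
    rw [Submodule.eq_top_iff']
    intro y
    have h1 : (sc c * (sc c⁻¹ * y)) ∈ I := (hI _ hcI _).2
    have h5 : sc c * (sc c⁻¹ * y) = y := by
      funext i
      rw [sc_mul, sc_mul, ← mul_assoc, mul_inv_cancel₀ hc, one_mul]
    rwa [h5] at h1

end Seven

/-- **Theorem.** Over every field `F` of characteristic not two there is a simple noncommutative
Jordan algebra `A` with `([x,y],y,y) = 0`, of infinite dimension over `F`, which is neither
alternative nor a Jordan algebra. -/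
theorem result (F : Type) [Field F] (h2 : (2 : F) ≠ 0) :
    ∃ (A : Type) (_ : NonUnitalNonAssocRing A) (_ : Module F A),
      IsSimpleAlg F A ∧ ¬ Module.Finite F A ∧ IsNCJordan A ∧ CommIdentity A ∧
        ¬ IsAlternative A ∧ ¬ IsJordanAlg A := by
  have h2' : (2 : RatFunc F) ≠ 0 := by
    intro h
    apply h2
    have h3 : algebraMap F (RatFunc F) 2 = algebraMap F (RatFunc F) 0 := by
      rw [map_ofNat, map_zero, h]
    exact (algebraMap F (RatFunc F)).injective h3
  refine ⟨Seven (RatFunc F), inferInstance, inferInstance, Seven.simple h2', ?_, Seven.ncj,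
    Seven.commId, Seven.not_alternative h2', fun h => Seven.not_comm h2' h.1⟩
  intro hfin
  let π : Seven (RatFunc F) →ₗ[F] RatFunc F :=
    { toFun := fun x => x 0, map_add' := fun _ _ => rfl, map_smul' := fun _ _ => rfl }
  have hsurj : Function.Surjective π := fun c => ⟨Seven.sc c, rfl⟩
  have hK : Module.Finite F (RatFunc F) := Module.Finite.of_surjective π hsurj
  exact RatFunc.transcendental_X (K := F) (Algebra.IsIntegral.isIntegral RatFunc.X).isAlgebraic

end Pool.Agent.Results.MP_52e257_al.SimpleExample
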